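import Pool.Agent.Helper46.KG.Base

/-!
# MP_0f21ab_al (Bertram's question): soluble groups of derived length at most three
-/

set_option autoImplicit false

namespace Helper71.KG

open Helper46.KG

open scoped commutatorElement

universe u

/-- One stage: an abelian normal subgroup `N` of index `m`. -/
theorem stage_abelian {G : Type u} [Group G] [Finite G] (N : Subgroup G) [N.Normal]
    (hN : ∀ x ∈ N, ∀ y ∈ N, x * y = y * x) :
    ∃ t, Nat.card G ≤ Nat.card (G ⧸ N) * (Nat.card (G ⧸ N) * t + 1) ∧ k (G ⧸ N) + t ≤ k G := by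
  obtain ⟨g, hg1, hg2⟩ := stage_central N N (fun z hz x hx => hN x hx z hz)
  refine ⟨g, ?_, hg2⟩
  have h1 := N.card_mul_index
  have h2 : Nat.card (G ⧸ N) = N.index := rfl
  rw [h2, ← h1, mul_comm]
  exact Nat.mul_le_mul_left _ hg1

theorem ds_comm {G : Type u} [Group G] (d : ℕ) (h : derivedSeries G (d + 1) = ⊥) :
    ∀ x ∈ derivedSeries G d, ∀ y ∈ derivedSeries G d, x * y = y * x := by
  intro x hx y hy
  rw [derivedSeries_succ, Subgroup.commutator_eq_bot_iff_le_centralizer] at h
  exact ((Subgroup.mem_centralizer_iff.mp (h hy)) x hx)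

theorem ds_quot {G : Type u} [Group G] (d : ℕ) :
    derivedSeries (G ⧸ derivedSeries G d) d = ⊥ := by
  have h := map_derivedSeries_eq (f := QuotientGroup.mk' (derivedSeries G d))
    (QuotientGroup.mk'_surjective _) d
  rw [← h, Subgroup.map_eq_bot_iff, QuotientGroup.ker_mk']

theorem comm_index {G : Type u} [Group G] [Finite G] (N : Subgroup G) [N.Normal]
    (hN : N ≤ commutator G) : (commutator (G ⧸ N)).index = (commutator G).index := by
  have h : (commutator G).map (QuotientGroup.mk' N) = commutator (G ⧸ N) := by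
    rw [_root_.commutator_def, Subgroup.map_commutator, _root_.commutator_def]
    have : (⊤ : Subgroup G).map (QuotientGroup.mk' N) = ⊤ :=
      Subgroup.map_top_of_surjective _ (QuotientGroup.mk'_surjective N)
    rw [this]
  rw [← h, Subgroup.index_map_eq _ (QuotientGroup.mk'_surjective N) (by simpa using hN)]

theorem ds_le {G : Type u} [Group G] (d : ℕ) : derivedSeries G (d + 1) ≤ commutator G := by
  have h := derivedSeries_antitone G (Nat.succ_le_succ (Nat.zero_le d))
  have h1 : derivedSeries G 1 = commutator G := derivedSeries_one G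
  rw [← h1]
  exact h

/-- one step along the derived series -/
theorem step {G : Type u} [Group G] [Finite G] (d : ℕ) (h : derivedSeries G (d + 2) = ⊥) :
    ∃ (Q : Type u) (_ : Group Q) (_ : Finite Q) (t : ℕ), derivedSeries Q (d + 1) = ⊥ ∧
      (commutator Q).index = (commutator G).index ∧
      Nat.card G ≤ Nat.card Q * (Nat.card Q * t + 1) ∧ k Q + t ≤ k G := by
  obtain ⟨t, ht1, ht2⟩ := stage_abelian (derivedSeries G (d + 1)) (ds_comm (d + 1) h)
  exact ⟨G ⧸ derivedSeries G (d + 1), inferInstance, inferInstance, t, ds_quot (d + 1),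
    comm_index _ (ds_le d), ht1, ht2⟩

/-- abelian groups -/
theorem k_abelian {G : Type u} [Group G] [Finite G] (h : derivedSeries G 1 = ⊥) :
    k G = (commutator G).index ∧ Nat.card G = (commutator G).index := by
  have hc : commutator G = ⊥ := by
    have h1 : derivedSeries G 1 = commutator G := derivedSeries_one G
    rw [← h1]
    exact h
  have hab : ∀ x y : G, x * y = y * x := by
    intro x y
    have : ⁅x, y⁆ ∈ commutator G :=
      Subgroup.commutator_mem_commutator (Subgroup.mem_top x) (Subgroup.mem_top y)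
    rw [hc, Subgroup.mem_bot, commutatorElement_eq_one_iff_mul_comm] at this
    exact this
  have hcard : Nat.card G = (commutator G).index := by
    rw [hc, Subgroup.index_bot]
  refine ⟨?_, hcard⟩
  rw [← hcard]
  unfold k
  refine (Nat.card_congr (Equiv.ofBijective (ConjClasses.mk : G → ConjClasses G) ⟨?_, ?_⟩)).symm
  · intro x y hxy
    rw [ConjClasses.mk_eq_mk_iff_isConj, isConj_iff] at hxy
    obtain ⟨c, hc⟩ := hxy
    rw [hab c x] at hc
    simpa using hc
  · intro C
    exact ConjClasses.exists_rep C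

/-! ### numbers for `d = 3` -/

theorem poly1 (u : ℕ) (hu : 1 ≤ u) : u * (u + 1) * (u * (u + 1) + 1) < 3 ^ (u + 2) := by
  induction u with
  | zero => omega
  | succ n ih =>
    rcases Nat.lt_or_ge n 5 with h | h
    · interval_cases n <;> norm_num
    · have ih' := ih (by omega)
      have h1 : (n + 1) * (n + 1 + 1) * ((n + 1) * (n + 1 + 1) + 1) ≤
          3 * (n * (n + 1) * (n * (n + 1) + 1)) := by
        obtain ⟨j, rfl⟩ := Nat.exists_eq_add_of_le h
        ring_nf
        nlinarith [Nat.zero_le (j ^ 2), Nat.zero_le (j ^ 3), Nat.zero_le (j ^ 4), Nat.zero_le j]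
      calc _ ≤ _ := h1
        _ < 3 * 3 ^ (n + 2) := by omega
        _ = 3 ^ (n + 1 + 2) := by ring

theorem poly2 (u : ℕ) (hu : 1 ≤ u) : u * (2 * u + 1) * (u * (2 * u + 1) + 1) < 3 ^ (u + 3) := by
  induction u with
  | zero => omega
  | succ n ih =>
    rcases Nat.lt_or_ge n 5 with h | h
    · interval_cases n <;> norm_num
    · have ih' := ih (by omega)
      have h1 : (n + 1) * (2 * (n + 1) + 1) * ((n + 1) * (2 * (n + 1) + 1) + 1) ≤
          3 * (n * (2 * n + 1) * (n * (2 * n + 1) + 1)) := by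
        obtain ⟨j, rfl⟩ := Nat.exists_eq_add_of_le h
        ring_nf
        nlinarith [Nat.zero_le (j ^ 2), Nat.zero_le (j ^ 3), Nat.zero_le (j ^ 4), Nat.zero_le j]
      calc _ ≤ _ := h1
        _ < 3 * 3 ^ (n + 3) := by omega
        _ = 3 ^ (n + 1 + 3) := by ring

theorem sq_le (t : ℕ) (ht : 3 ≤ t) : 3 * (t * t) ≤ 3 ^ t := by
  induction t with
  | zero => omega
  | succ n ih =>
    rcases Nat.lt_or_ge n 3 with h | h
    · have hn : n = 2 := by omega
      subst hn
      norm_num
    · have := ih h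
      have h1 : (n + 1) * (n + 1) ≤ 3 * (n * n) := by nlinarith
      calc 3 * ((n + 1) * (n + 1)) ≤ 3 * (3 * (n * n)) := Nat.mul_le_mul_left _ h1
        _ ≤ 3 * 3 ^ n := Nat.mul_le_mul_left _ this
        _ = 3 ^ (n + 1) := by ring

theorem num12 (u t : ℕ) (hu : 1 ≤ u) :
    u * (u * t + 1) * (u * (u * t + 1) + 1) < 3 ^ (u + t + 1) := by
  rcases Nat.lt_or_ge t 3 with h | h
  · interval_cases t
    · have h1 := poly1 u hu
      have h2 : u * (u * 0 + 1) * (u * (u * 0 + 1) + 1) = u * (u + 1) := by ring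
      rw [h2]
      have h5 : ∀ n : ℕ, 1 ≤ n → n * (n + 1) < 3 ^ (n + 0 + 1) := by
        intro n hn
        induction n with
        | zero => omega
        | succ n ih =>
          rcases Nat.eq_zero_or_pos n with h0 | h0
          · subst h0; norm_num
          · have := ih h0
            calc (n + 1) * (n + 1 + 1) ≤ 3 * (n * (n + 1)) := by nlinarith
              _ < 3 * 3 ^ (n + 0 + 1) := by omega
              _ = 3 ^ (n + 1 + 0 + 1) := by ring
      exact h5 u hu
    · have h1 := poly1 u hu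
      calc _ = u * (u + 1) * (u * (u + 1) + 1) := by ring
        _ < _ := h1
        _ = _ := by ring
    · have h1 := poly2 u hu
      calc _ = u * (2 * u + 1) * (u * (2 * u + 1) + 1) := by ring
        _ < _ := h1
        _ = _ := by ring
  · have h1 := poly1 u hu
    have h2 := sq_le t h
    have h3 : u * (u * t + 1) ≤ t * (u * (u + 1)) := by nlinarith [Nat.zero_le (u * t), Nat.zero_le u]
    have h4 : u * (u * t + 1) + 1 ≤ t * (u * (u + 1) + 1) := by nlinarith
    calc u * (u * t + 1) * (u * (u * t + 1) + 1)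
        ≤ (t * (u * (u + 1))) * (t * (u * (u + 1) + 1)) := Nat.mul_le_mul h3 h4
      _ = (t * t) * (u * (u + 1) * (u * (u + 1) + 1)) := by ring
      _ < (t * t) * 3 ^ (u + 2) := Nat.mul_lt_mul_of_pos_left h1 (by positivity)
      _ = 3 * (t * t) * 3 ^ (u + 1) := by ring
      _ ≤ 3 ^ t * 3 ^ (u + 1) := Nat.mul_le_mul_right _ h2
      _ = 3 ^ (u + t + 1) := by ring

/-- the numerical statement for derived length three -/
theorem num3 (u t₁ t₂ m c : ℕ) (hu : 1 ≤ u) (hm : m ≤ u * (u * t₁ + 1))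
    (hc : c ≤ m * (m * t₂ + 1)) : c < 3 ^ (u + t₁ + t₂) := by
  have h1 := num12 u t₁ hu
  set M := u * (u * t₁ + 1) with hM
  have hM1 : 1 ≤ M := Nat.mul_pos hu (Nat.succ_pos _)
  have h2 : c ≤ M * (M * t₂ + 1) :=
    hc.trans (Nat.mul_le_mul hm (Nat.succ_le_succ (Nat.mul_le_mul_right _ hm)))
  rcases Nat.eq_zero_or_pos t₂ with h0 | h0
  · subst h0
    simp only [mul_zero, zero_add, mul_one, add_zero] at h2 ⊢
    refine lt_of_le_of_lt h2 ?_
    by_contra hcon
    have hcon' : 3 ^ (u + t₁) ≤ M := not_lt.mp hcon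
    have h3 : 3 ^ (u + t₁) * (3 ^ (u + t₁) + 1) ≤ M * (M + 1) :=
      Nat.mul_le_mul hcon' (Nat.succ_le_succ hcon')
    have h4 : 3 ≤ 3 ^ (u + t₁) := by
      calc 3 = 3 ^ 1 := by norm_num
        _ ≤ 3 ^ (u + t₁) := Nat.pow_le_pow_right (by norm_num) (by omega)
    have h5 : 3 ^ (u + t₁ + 1) = 3 * 3 ^ (u + t₁) := by ring
    rw [h5] at h1
    nlinarith
  · have h3 : ∀ t, 1 ≤ t → 3 * (M * t + 1) ≤ (M + 1) * 3 ^ t := by
      intro t ht
      induction t with
      | zero => omega
      | succ n ih =>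
        rcases Nat.eq_zero_or_pos n with h0 | h0
        · subst h0; simp; omega
        · have := ih h0
          calc 3 * (M * (n + 1) + 1) ≤ 3 * (3 * (M * n + 1)) := by nlinarith
            _ ≤ 3 * ((M + 1) * 3 ^ n) := Nat.mul_le_mul_left _ this
            _ = (M + 1) * 3 ^ (n + 1) := by ring
    have h4 := h3 t₂ h0
    have h5 : 3 * c < 3 * 3 ^ (u + t₁ + t₂) := by
      calc 3 * c ≤ M * (3 * (M * t₂ + 1)) := by
            calc 3 * c ≤ 3 * (M * (M * t₂ + 1)) := Nat.mul_le_mul_left _ h2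
              _ = M * (3 * (M * t₂ + 1)) := by ring
        _ ≤ M * ((M + 1) * 3 ^ t₂) := Nat.mul_le_mul_left _ h4
        _ = (M * (M + 1)) * 3 ^ t₂ := by ring
        _ < 3 ^ (u + t₁ + 1) * 3 ^ t₂ := Nat.mul_lt_mul_of_pos_right h1 (by positivity)
        _ = 3 * 3 ^ (u + t₁ + t₂) := by ring
    omega

theorem three {G : Type u} [Group G] [Finite G] (h : derivedSeries G 3 = ⊥) :
    Nat.card G < 3 ^ k G := by
  obtain ⟨Q, _, _, t₂, hQ, hQi, hG1, hG2⟩ := step 1 h
  obtain ⟨R, _, _, t₁, hR, hRi, hQ1, hQ2⟩ := step 0 hQ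
  obtain ⟨hR1, hR2⟩ := k_abelian hR
  have hu : 1 ≤ (commutator G).index := Nat.pos_of_ne_zero Subgroup.index_ne_zero_of_finite
  have hRc : Nat.card R = (commutator G).index := by rw [hR2, hRi, hQi]
  have hRk : k R = (commutator G).index := by rw [hR1, hRi, hQi]
  rw [hRc] at hQ1
  rw [hRk] at hQ2
  refine lt_of_lt_of_le (num3 _ t₁ t₂ _ _ hu hQ1 hG1) (Nat.pow_le_pow_right (by norm_num) ?_)
  omega

/-! ### general derived length -/

/-- the weighted inequality along the derived series -/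
theorem weighted (d : ℕ) : ∀ (j : ℕ) (G : Type u) [Group G] [Finite G],
    derivedSeries G (d + 1) = ⊥ →
    (2 : ℝ) ^ j * Real.log (Nat.card G) ≤
      (2 : ℝ) ^ (j + d) * Real.log (commutator G).index +
        ((k G : ℝ) - (commutator G).index) +
        ∑ i ∈ Finset.range d, (2 : ℝ) ^ (j + i) * ((j + i : ℕ) * Real.log 2) := by
  induction d with
  | zero =>
    intro j G _ _ h
    obtain ⟨h1, h2⟩ := k_abelian h
    rw [h2, h1]
    simp
  | succ d ih =>
    intro j G _ _ h
    obtain ⟨Q, _, _, t, hQ, hQi, hG1, hG2⟩ := step d h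
    have h1 := ih (j + 1) Q hQ
    rw [hQi] at h1
    have hm : 1 ≤ Nat.card Q := Nat.card_pos
    have hGpos : 0 < Nat.card G := Nat.card_pos
    have hA : (0 : ℝ) < (2 : ℝ) ^ j := by positivity
    -- `log |G| ≤ 2 log |Q| + log (t + 1)`
    have h2 : Real.log (Nat.card G) ≤ 2 * Real.log (Nat.card Q) + Real.log (t + 1) := by
      have h3 : (Nat.card G : ℝ) ≤ (Nat.card Q : ℝ) * (Nat.card Q : ℝ) * ((t : ℝ) + 1) := by
        have h4 : Nat.card G ≤ Nat.card Q * Nat.card Q * (t + 1) := by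
          refine hG1.trans ?_
          rw [mul_assoc]
          exact Nat.mul_le_mul_left _ (by nlinarith)
        exact_mod_cast h4
      have hQ0 : (Nat.card Q : ℝ) ≠ 0 := by positivity
      have ht0 : (t : ℝ) + 1 ≠ 0 := by positivity
      calc Real.log (Nat.card G) ≤ Real.log ((Nat.card Q : ℝ) * (Nat.card Q : ℝ) * ((t : ℝ) + 1)) :=
            Real.log_le_log (by exact_mod_cast hGpos) h3
        _ = 2 * Real.log (Nat.card Q) + Real.log (t + 1) := by
            rw [Real.log_mul (mul_ne_zero hQ0 hQ0) ht0, Real.log_mul hQ0 hQ0]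
            ring
    -- `a log (t + 1) ≤ t + a log a`
    have h5 : (2 : ℝ) ^ j * Real.log (t + 1) ≤ t + (2 : ℝ) ^ j * (j * Real.log 2) := by
      have h6 : (j : ℝ) * Real.log 2 = Real.log ((2 : ℝ) ^ j) := by rw [Real.log_pow]
      rw [h6]
      have h7 : Real.log (((t : ℝ) + 1) / (2 : ℝ) ^ j) ≤ ((t : ℝ) + 1) / (2 : ℝ) ^ j - 1 :=
        Real.log_le_sub_one_of_pos (by positivity)
      rw [Real.log_div (by positivity) (by positivity)] at h7
      have h8 : (2 : ℝ) ^ j * (Real.log ((t : ℝ) + 1) - Real.log ((2 : ℝ) ^ j)) ≤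
          (2 : ℝ) ^ j * (((t : ℝ) + 1) / (2 : ℝ) ^ j - 1) := mul_le_mul_of_nonneg_left h7 hA.le
      have h9 : (2 : ℝ) ^ j * (((t : ℝ) + 1) / (2 : ℝ) ^ j - 1) = (t : ℝ) + 1 - (2 : ℝ) ^ j := by
        field_simp
      have h10 : (1 : ℝ) ≤ (2 : ℝ) ^ j := one_le_pow₀ (by norm_num)
      rw [h9] at h8
      nlinarith
    have h11 : (k Q : ℝ) + t ≤ k G := by exact_mod_cast hG2
    have h12 : (2 : ℝ) ^ j * Real.log (Nat.card G) ≤
        (2 : ℝ) ^ (j + 1) * Real.log (Nat.card Q) + (2 : ℝ) ^ j * Real.log (t + 1) := by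
      have := mul_le_mul_of_nonneg_left h2 hA.le
      rw [pow_succ]
      linarith
    rw [Finset.sum_range_succ']
    have h13 : ∑ i ∈ Finset.range d, (2 : ℝ) ^ (j + (i + 1)) * ((j + (i + 1) : ℕ) * Real.log 2) =
        ∑ i ∈ Finset.range d, (2 : ℝ) ^ (j + 1 + i) * ((j + 1 + i : ℕ) * Real.log 2) := by
      refine Finset.sum_congr rfl fun i _ => ?_
      have : j + (i + 1) = j + 1 + i := by ring
      rw [this]
    rw [h13]
    have h14 : (2 : ℝ) ^ (j + (d + 1)) = (2 : ℝ) ^ (j + 1 + d) := by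
      congr 1
      ring
    rw [h14]
    simp only [add_zero]
    linarith

theorem sum_eval (d : ℕ) : ∑ i ∈ Finset.range (d + 1), (2 : ℝ) ^ (0 + i) * ((0 + i : ℕ) * Real.log 2)
    = (((d : ℝ) - 1) * 2 ^ (d + 1) + 2) * Real.log 2 := by
  induction d with
  | zero => simp
  | succ d ih =>
    rw [Finset.sum_range_succ, ih]
    push_cast
    ring

theorem index_le_k (d : ℕ) : ∀ (G : Type u) [Group G] [Finite G], derivedSeries G (d + 1) = ⊥ →
    (commutator G).index ≤ k G := by
  induction d with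
  | zero => intro G _ _ h; exact (k_abelian h).1.ge
  | succ d ih =>
    intro G _ _ h
    obtain ⟨Q, _, _, t, hQ, hQi, hG1, hG2⟩ := step d h
    have := ih Q hQ
    omega

theorem big {G : Type u} [Group G] [Finite G] (d : ℕ) (h : derivedSeries G (d + 2) = ⊥)
    (hu : (d + 2) * 2 ^ (d + 2) ≤ (commutator G).index) : Nat.card G < 3 ^ k G := by
  have hw := weighted (d + 1) 0 G h
  rw [sum_eval] at hw
  simp only [pow_zero, one_mul, zero_add] at hw
  set u : ℕ := (commutator G).index with hudef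
  have hupos : 0 < u := lt_of_lt_of_le (by positivity) hu
  have huR : ((d : ℝ) + 2) * 2 ^ (d + 2) ≤ u := by exact_mod_cast hu
  -- tangent
  set s : ℝ := ((d : ℝ) + 2) * 2 ^ (d + 2) with hs
  have hspos : 0 < s := by positivity
  have h1 : Real.log u ≤ u / s - 1 + Real.log s := by
    have := Real.log_le_sub_one_of_pos (x := (u : ℝ) / s) (by positivity)
    rw [Real.log_div (by positivity) (by positivity)] at this
    linarith
  have hlogs : Real.log s = Real.log ((d : ℝ) + 2) + ((d : ℝ) + 2) * Real.log 2 := by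
    rw [hs, Real.log_mul (by positivity) (by positivity), Real.log_pow]
    push_cast
    ring
  have h2 : Real.log ((d : ℝ) + 2) ≤ ((d : ℝ) + 2) / 2 - 1 + Real.log 2 := by
    have := Real.log_le_sub_one_of_pos (x := ((d : ℝ) + 2) / 2) (by positivity)
    rw [Real.log_div (by positivity) (by positivity)] at this
    linarith
  have hl3 : (1 : ℝ) < Real.log 3 := by
    rw [Real.lt_log_iff_exp_lt (by norm_num)]
    exact lt_trans Real.exp_one_lt_d9 (by norm_num)
  have hl2 : Real.log 2 < (0.6931471808 : ℝ) := Real.log_two_lt_d9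
  have hl2' : (0.6931471803 : ℝ) < Real.log 2 := Real.log_two_gt_d9
  have hku : (u : ℝ) ≤ k G := by exact_mod_cast index_le_k (d + 1) G h
  have hB : (2 : ℝ) ≤ (2 : ℝ) ^ (d + 1) := by
    calc (2 : ℝ) = 2 ^ 1 := by norm_num
      _ ≤ 2 ^ (d + 1) := pow_le_pow_right₀ (by norm_num) (by omega)
  have hd0 : (0 : ℝ) ≤ d := Nat.cast_nonneg d
  set B : ℝ := (2 : ℝ) ^ (d + 1) with hBdef
  have hs' : s = 2 * ((d : ℝ) + 2) * B := by
    rw [hs, hBdef]
    ring
  have hus : B * (u / s) = u / (2 * ((d : ℝ) + 2)) := by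
    rw [hs']
    field_simp
  -- the final estimate
  have hmain : B * Real.log u + (((d : ℝ) - 1) * B + 2) * Real.log 2 < u * Real.log 3 := by
    have e1 : B * Real.log u ≤ u / (2 * ((d : ℝ) + 2)) + B * (Real.log s - 1) := by
      have := mul_le_mul_of_nonneg_left h1 (by positivity : (0 : ℝ) ≤ B)
      calc B * Real.log u ≤ B * (u / s - 1 + Real.log s) := this
        _ = B * (u / s) + B * (Real.log s - 1) := by ring
        _ = _ := by rw [hus]
    have e2 : Real.log s - 1 ≤ (d : ℝ) / 2 + ((d : ℝ) + 3) * Real.log 2 - 1 := by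
      rw [hlogs]
      linarith
    have e3 : B * (Real.log s - 1) ≤ B * ((d : ℝ) / 2 + ((d : ℝ) + 3) * Real.log 2 - 1) :=
      mul_le_mul_of_nonneg_left e2 (by positivity)
    have e4 : 2 * Real.log 2 ≤ B * Real.log 2 :=
      mul_le_mul_of_nonneg_right hB (by linarith)
    -- it remains: `B (d/2 + (2 d + 3) log 2 - 1) + u/(2(d+2)) < u log 3`
    have e5 : (u : ℝ) * (Real.log 3 - 1 / (2 * ((d : ℝ) + 2))) ≥
        (2 * ((d : ℝ) + 2) * B) * (1 - 1 / (2 * ((d : ℝ) + 2))) := by
      rw [hs'] at huR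
      have hfrac : 1 / (2 * ((d : ℝ) + 2)) ≤ 1 := by
        rw [div_le_one (by positivity)]
        linarith
      have hB0 : (0 : ℝ) ≤ 2 * ((d : ℝ) + 2) * B := by positivity
      exact mul_le_mul huR (by linarith) (by linarith) (by positivity)
    have e6 : (2 * ((d : ℝ) + 2) * B) * (1 - 1 / (2 * ((d : ℝ) + 2))) =
        B * (2 * (d : ℝ) + 3) := by
      field_simp
      ring
    have e7 : (d : ℝ) / 2 + ((d : ℝ) + 3) * Real.log 2 - 1 + ((d : ℝ) - 1) * Real.log 2
        + Real.log 2 < 2 * (d : ℝ) + 3 := by nlinarith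
    have e8 : B * ((d : ℝ) / 2 + ((d : ℝ) + 3) * Real.log 2 - 1 + ((d : ℝ) - 1) * Real.log 2
        + Real.log 2) < B * (2 * (d : ℝ) + 3) := mul_lt_mul_of_pos_left e7 (by positivity)
    have e9 : (u : ℝ) * (Real.log 3 - 1 / (2 * ((d : ℝ) + 2))) =
        u * Real.log 3 - u / (2 * ((d : ℝ) + 2)) := by ring
    nlinarith
  have hkeq : (k G : ℝ) * Real.log 3 > Real.log (Nat.card G) := by
    have f1 : (u : ℝ) * (Real.log 3 - 1) ≤ k G * (Real.log 3 - 1) :=
      mul_le_mul_of_nonneg_right hku (by linarith)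
    have f2 : B * Real.log u + (((d : ℝ) - 1) * B + 2) * Real.log 2 < u * Real.log 3 := hmain
    nlinarith
  have hG0 : (0 : ℝ) < Nat.card G := by exact_mod_cast (Nat.card_pos : 0 < Nat.card G)
  have h3 : (Nat.card G : ℝ) < 3 ^ k G := by
    rw [← Real.log_lt_log_iff hG0 (by positivity), Real.log_pow]
    exact hkeq
  exact_mod_cast h3

end Helper71.KG
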