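import Pool.Agent.Helper71.KG.DL

set_option autoImplicit false

namespace Helper71.KG

open Helper46.KG

universe u

/-- central quotients -/
theorem central_step {G : Type u} [Group G] [Finite G]
    (h : Nat.card (G ⧸ Subgroup.center G) < 3 ^ k (G ⧸ Subgroup.center G)) :
    Nat.card G < 3 ^ k G := by
  obtain ⟨g, hg1, hg2⟩ := stage_central (⊤ : Subgroup G) (Subgroup.center G)
    (fun z hz x _ => (Subgroup.mem_center_iff.mp hz) x)
  rw [Subgroup.index_top, one_mul] at hg1
  have h1 := (Subgroup.center G).card_mul_index
  have h2 : Nat.card (G ⧸ Subgroup.center G) = (Subgroup.center G).index := rfl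
  have h3 : g + 1 ≤ 3 ^ g := Nat.lt_pow_self (by norm_num)
  calc Nat.card G = Nat.card (Subgroup.center G) * Nat.card (G ⧸ Subgroup.center G) := by
        rw [h2, h1]
    _ ≤ 3 ^ g * Nat.card (G ⧸ Subgroup.center G) := Nat.mul_le_mul_right _ (hg1.trans h3)
    _ < 3 ^ g * 3 ^ k (G ⧸ Subgroup.center G) := Nat.mul_lt_mul_of_pos_left h (by positivity)
    _ = 3 ^ (k (G ⧸ Subgroup.center G) + g) := by rw [pow_add]; ring
    _ ≤ 3 ^ k G := Nat.pow_le_pow_right (by norm_num) hg2

theorem of_derived (G : Type u) [Group G] [Finite G] (d : ℕ) (hd : derivedSeries G d = ⊥)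
    (h : d ≤ 3 ∨ d * 2 ^ d ≤ (commutator G).index) : Nat.card G < 3 ^ k G := by
  rcases Nat.lt_or_ge 3 d with h3 | h3
  · obtain ⟨e, rfl⟩ : ∃ e, d = e + 2 := ⟨d - 2, by omega⟩
    exact big e hd (h.resolve_left (by omega))
  · refine three ?_
    have h4 := derivedSeries_antitone G h3
    rw [hd] at h4
    exact le_bot_iff.mp h4

theorem of_hyper (n d : ℕ) : ∀ (G : Type u) [Group G] [Finite G],
    derivedSeries G d ≤ Subgroup.upperCentralSeries G n →
    (d ≤ 3 ∨ d * 2 ^ d ≤ (commutator G ⊔ Subgroup.upperCentralSeries G n).index) →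
    Nat.card G < 3 ^ k G := by
  induction n with
  | zero =>
    intro G _ _ hd h
    rw [Subgroup.upperCentralSeries_zero] at hd h
    rw [sup_bot_eq] at h
    exact of_derived G d (le_bot_iff.mp hd) h
  | succ n ih =>
    intro G _ _ hd h
    refine central_step (ih (G ⧸ Subgroup.center G) ?_ ?_)
    · have h1 := map_derivedSeries_eq (f := QuotientGroup.mk' (Subgroup.center G))
        (QuotientGroup.mk'_surjective _) d
      rw [← h1, Subgroup.map_le_iff_le_comap, Subgroup.comap_upperCentralSeries_quotient_center]
      exact hd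
    · refine h.imp id fun h => ?_
      have h1 : (commutator G).map (QuotientGroup.mk' (Subgroup.center G)) =
          commutator (G ⧸ Subgroup.center G) := by
        rw [_root_.commutator_def, Subgroup.map_commutator, _root_.commutator_def]
        have : (⊤ : Subgroup G).map (QuotientGroup.mk' (Subgroup.center G)) = ⊤ :=
          Subgroup.map_top_of_surjective _ (QuotientGroup.mk'_surjective _)
        rw [this]
      have h2 : (commutator (G ⧸ Subgroup.center G) ⊔
          Subgroup.upperCentralSeries (G ⧸ Subgroup.center G) n).index =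
          (commutator G ⊔ Subgroup.upperCentralSeries G (n + 1)).index := by
        have h3 := Subgroup.map_comap_eq_self_of_surjective
          (QuotientGroup.mk'_surjective (Subgroup.center G))
          (Subgroup.upperCentralSeries (G ⧸ Subgroup.center G) n)
        rw [← h1, ← Subgroup.comap_upperCentralSeries_quotient_center, ← h3, ← Subgroup.map_sup, h3]
        refine Subgroup.index_map_eq _ (QuotientGroup.mk'_surjective _) ?_
        rw [QuotientGroup.ker_mk']
        refine le_trans ?_ le_sup_right
        intro x hx
        rw [Subgroup.mem_comap]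
        have : QuotientGroup.mk' (Subgroup.center G) x = 1 := (QuotientGroup.eq_one_iff x).mpr hx
        rw [this]
        exact Subgroup.one_mem _
      rw [h2]
      exact h

end Helper71.KG
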