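import Pool.Agent.Helper65.KG.Goals

/-!
# Project KG (MP_20ee5e_ag), packet NM9 (helper71)
-/

open MeasureTheory Set

namespace Pool.Agent.Helper71.KG.NM9

open Pool.Agent.Helper70.KN Pool.Agent.Helper65.KG

/-- The lower bound for `κ` for small `σ`. -/
theorem small (N : ℕ) (hN : 9 ≤ N) (u : ℝ) (hu : 0 ≤ u) (hu1 : u ≤ 35 / 100) :
    27979 / 10000 * u ≤ 1 - (1 - u) ^ N := by
  have h0 : 0 ≤ 1 - u := by linarith
  have h1 : (1 - u) ^ N ≤ (1 - u) ^ 9 := pow_le_pow_of_le_one h0 (by linarith) hN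
  have h2 : ∀ l : ℕ, (65 / 100 : ℝ) ^ l ≤ (1 - u) ^ l := fun l =>
    pow_le_pow_left₀ (by norm_num) (by linarith) l
  have h3 : 1 - (1 - u) ^ 9 = u * (1 + (1 - u) ^ 1 + (1 - u) ^ 2 + (1 - u) ^ 3 + (1 - u) ^ 4 +
      (1 - u) ^ 5 + (1 - u) ^ 6 + (1 - u) ^ 7 + (1 - u) ^ 8) := by ring
  have h4 : (27979 / 10000 : ℝ) ≤ 1 + (1 - u) ^ 1 + (1 - u) ^ 2 + (1 - u) ^ 3 + (1 - u) ^ 4 +
      (1 - u) ^ 5 + (1 - u) ^ 6 + (1 - u) ^ 7 + (1 - u) ^ 8 := by
    have k1 := h2 1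
    have k2 := h2 2
    have k3 := h2 3
    have k4 := h2 4
    have k5 := h2 5
    have k6 := h2 6
    have k7 := h2 7
    have k8 := h2 8
    norm_num at k1 k2 k3 k4 k5 k6 k7 k8
    linarith
  have h5 := mul_le_mul_of_nonneg_left h4 hu
  rw [← h3] at h5
  linarith

theorem pw (N : ℕ) (hN : 9 ≤ N) (u : ℝ) (hu : 35 / 100 ≤ u) (hu1 : u ≤ 1) :
    979 / 1000 ≤ 1 - (1 - u) ^ N := by
  have h0 : 0 ≤ 1 - u := by linarith
  have h1 : (1 - u) ^ N ≤ (1 - u) ^ 9 := pow_le_pow_of_le_one h0 (by linarith) hN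
  have h2 : (1 - u) ^ 9 ≤ (65 / 100 : ℝ) ^ 9 := pow_le_pow_left₀ h0 (by linarith) 9
  norm_num at h2
  linarith

/-- **NM9.** -/
theorem t : S_NM9 := by
  intro N hN
  obtain ⟨K0, K1, K2⟩ := pKP N (by omega)
  have hNr : (9 : ℝ) ≤ N := by exact_mod_cast hN
  have hN0 : (0 : ℝ) < N := by linarith
  obtain ⟨n, hn⟩ : ∃ n : ℝ, n = (N : ℝ) := ⟨_, rfl⟩
  have hn9 : 9 ≤ n := by rw [hn]; exact hNr
  have hn0 : 0 < n := by linarith
  have hni : 1 / n ≤ 1 / 9 := one_div_le_one_div_of_le (by norm_num) hn9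
  have hni0 : 0 < 1 / n := by positivity
  obtain ⟨x, hx⟩ : ∃ x : ℝ, x = 516 / 1000 + 1 / n := ⟨_, rfl⟩
  have hx0 : 0 < x := by rw [hx]; positivity
  have hx1 : x ≤ 628 / 1000 := by rw [hx]; linarith
  unfold Nm
  refine ⟨2 * (979 / 1000) * x, 979 / 1000 * x ^ 2, by positivity, ?_, ?_, ?_⟩
  · intro σ hσ
    have hβ : 0 ≤ 979 / 1000 * x ^ 2 * σ := by positivity
    have hmain : 0 < σ → 2 * (979 / 1000) * x - 979 / 1000 * x ^ 2 * σ ≤ 979 / 1000 / σ := by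
      intro hσ0
      have h1 : 0 ≤ 979 / 1000 / σ * (1 - x * σ) ^ 2 := by positivity
      have h2 : 979 / 1000 / σ * (1 - x * σ) ^ 2 =
          979 / 1000 / σ - (2 * (979 / 1000) * x - 979 / 1000 * x ^ 2 * σ) := by
        field_simp
        ring
      linarith
    rcases eq_or_lt_of_le hσ with h0 | h0
    · rw [← h0, K0]
      simp only [mul_zero, sub_zero]
      linarith
    rcases le_or_gt σ 2 with h2 | h2
    · rw [K1 σ h0 h2]
      rcases le_or_gt σ (7 / 10) with h7 | h7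
      · have h3 := small N hN (σ / 2) (by linarith) (by linarith)
        rw [le_div_iff₀ h0]
        nlinarith
      · refine (hmain h0).trans ?_
        exact div_le_div_of_nonneg_right (pw N hN (σ / 2) (by linarith) (by linarith)) h0.le
    · rw [K2 σ h2.le]
      refine (hmain h0).trans ?_
      exact div_le_div_of_nonneg_right (by norm_num) h0.le
  · unfold th
    rw [← hn, hx]
    have h1 : 2 * (979 / 1000 * (516 / 1000 + 1 / n) ^ 2) * (n - 2) / n =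
        (2 * (979 / 1000) * (516 / 1000 * n + 1) ^ 2 * (n - 2)) / n ^ 3 := by
      field_simp
    have h2 : 1 - 2 * (n - 2) / (3 * n) * (1 - (n - 3) / (2 * n) * (1 - 2 * (n - 4) / (5 * n))) =
        (8 * n ^ 3 + 13 * n ^ 2 - 22 * n + 48) / (15 * n ^ 3) := by
      field_simp
      ring
    rw [h1, h2, div_le_div_iff₀ (by positivity) (by positivity)]
    have h3 : 0 ≤ n ^ 3 * ((8 * n ^ 3 + 13 * n ^ 2 - 22 * n + 48) -
        15 * (2 * (979 / 1000) * (516 / 1000 * n + 1) ^ 2 * (n - 2))) := by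
      apply mul_nonneg (by positivity)
      nlinarith [mul_nonneg (mul_nonneg (sub_nonneg.2 hn9) (sub_nonneg.2 hn9)) hn0.le,
        mul_nonneg (sub_nonneg.2 hn9) hn0.le]
    nlinarith [h3]
  · rw [← hn, hx]
    have h1 : (n - 1) / n * (2 * (979 / 1000) * (516 / 1000 + 1 / n) -
        979 / 1000 * (516 / 1000 + 1 / n) ^ 2 * (2 / n)) =
        (2 * (979 / 1000) * (n - 1) * ((516 / 1000 * n + 1) * n ^ 2 -
          (516 / 1000 * n + 1) ^ 2)) / n ^ 4 := by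
      field_simp
    rw [h1, lt_div_iff₀ (by positivity)]
    nlinarith [mul_nonneg (mul_nonneg (sub_nonneg.2 hn9) (sub_nonneg.2 hn9)) (sq_nonneg n),
      mul_nonneg (sub_nonneg.2 hn9) (sq_nonneg n), mul_nonneg (sub_nonneg.2 hn9) hn0.le]

end Pool.Agent.Helper71.KG.NM9
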